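import Pool.Agent.R654.SharpCore
import Pool.Agent.R380.St.Final

/-!
MP_0dd7b8_al, Q1 (full positive answer): the free superposition of the random 4-tournament and the
triangle-free random graph has a structurally sharply 4-transitive group action by automorphisms.
-/

namespace Pool.Agent.Results.MP_0dd7b8_al.SharpFour

open Function

/-- A structure with a 4-ary relation `R` (of injective tuples) and a binary relation `E`: the
`R`-reduct is a 4-tournament (on each 4-set, `R` holds for exactly one of the two classes of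
orderings modulo the alternating group) and `E` is a triangle-free graph. -/
structure IsST (M : Type) (R : (Fin 4 → M) → Prop) (E : M → M → Prop) : Prop where
  inj : ∀ a, R a → Injective a
  tour : ∀ a, Injective a → ∀ σ : Equiv.Perm (Fin 4), (R (a ∘ σ) ↔ (R a ↔ Equiv.Perm.sign σ = 1))
  irr : ∀ x, ¬ E x x
  symm : ∀ x y, E x y → E y x
  free : ∀ x y z, E x y → E y z → ¬ E x z

/-- `f` is an embedding: injective, preserves and reflects the relations. -/
def Emb {A M : Type} (R' : (Fin 4 → A) → Prop) (E' : A → A → Prop) (R : (Fin 4 → M) → Prop)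
    (E : M → M → Prop) (f : A → M) : Prop :=
  Injective f ∧ (∀ a, R' a ↔ R (f ∘ a)) ∧ ∀ x y, E' x y ↔ E (f x) (f y)

/-- `(M, R, E)` is the free superposition of the random 4-tournament and the triangle-free random
graph: the Fraisse limit of the finite structures `IsST`. -/
structure IsLimit (M : Type) (R : (Fin 4 → M) → Prop) (E : M → M → Prop) : Prop where
  countable : Countable M
  st : IsST M R E
  /-- every finite structure of the class embeds -/
  universal : ∀ (n : ℕ) (R' : (Fin 4 → Fin n) → Prop) (E' : Fin n → Fin n → Prop), IsST (Fin n) R' E' →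
    ∃ f : Fin n → M, Emb R' E' R E f
  /-- ultrahomogeneity -/
  homogeneous : ∀ (n : ℕ) (a b : Fin n → M), Injective a → Injective b →
    (∀ x : Fin 4 → Fin n, R (a ∘ x) ↔ R (b ∘ x)) → (∀ i j, E (a i) (a j) ↔ E (b i) (b j)) →
    ∃ g : Equiv.Perm M, (∀ x, R (g ∘ x) ↔ R x) ∧ (∀ x y, E (g x) (g y) ↔ E x y) ∧ ∀ i, g (a i) = b i

/-- Positive answer to Q1 of MP_0dd7b8_al. -/
theorem result (M : Type) (R : (Fin 4 → M) → Prop) (E : M → M → Prop) (hM : IsLimit M R E) :
    ∃ (G : Type) (_ : Group G) (_ : MulAction G M),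
      (∀ (g : G) (x : Fin 4 → M), R (fun i => g • x i) ↔ R x) ∧
      (∀ (g : G) (x y : M), E (g • x) (g • y) ↔ E x y) ∧
      ∀ a b : Fin 4 → M, Injective a → Injective b →
        (∀ x : Fin 4 → Fin 4, R (a ∘ x) ↔ R (b ∘ x)) → (∀ i j, E (a i) (a j) ↔ E (b i) (b j)) →
        ∃! g : G, ∀ i, g • a i = b i := by
  have hU : Pool.Agent.R380.St.IsLimit M R E :=
    ⟨hM.countable, ⟨hM.st.inj, hM.st.tour, hM.st.irr, hM.st.symm, hM.st.free⟩,
      fun n R' E' h => hM.universal n R' E' ⟨h.inj, h.tour, h.irr, h.symm, h.free⟩, hM.homogeneous⟩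
  have := hM.countable
  have := Pool.Agent.R380.St.infinite hU
  obtain ⟨G, h1, h2, h3, h4⟩ := Pool.Agent.R654.SharpCore.core (k := 4) (by norm_num)
      (Pool.Agent.R380.St.setup M R E) (Pool.Agent.R380.St.good hU)
  refine ⟨G, inferInstance, inferInstance, ?_, ?_, ?_⟩
  · intro g x
    exact ((h1 g.1 g.2).1 x (fun i => g • x i) (fun i => rfl)).symm
  · intro g x y
    exact ((h1 g.1 g.2).2 (x, g • x) rfl (y, g • y) rfl).symm
  · intro a b ha hb hR hE
    exact Pool.Agent.R380.St.gadmits (fun _ _ h => h) G h1 h2 h3 h4 a b ha hb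
      (Pool.Agent.R380.St.pp_tup a b hR hE)

end Pool.Agent.Results.MP_0dd7b8_al.SharpFour
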